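import Pool.Agent.Y602.CIS
import Pool.Agent.R554.Collapse

/-!
# Recognising CIS graphs is coNP-complete

The decision problem CIS RECOGNITION has as input a finite simple graph, given by an adjacency
matrix `M : List (List Bool)`; `matGraph M` is the graph.  The question is whether every maximal
clique meets every maximal stable set.
-/

set_option autoImplicit false

namespace Pool.Agent.Results.MP_bb030f_lc.CISCoNPComplete

open Pool.Agent.NPC Pool.Agent.H622R2 Pool.Agent.Y602

/-- CIS RECOGNITION is `coNP`-complete under polynomial-time many-one reductions, and it is in `P`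
if and only if all of `NP` is in `P`. -/
theorem result : InCoNPP (fun M : List (List Bool) => IsCIS (matGraph M)) ∧
    CoNPHardP (fun M : List (List Bool) => IsCIS (matGraph M)) ∧
    (InPP (fun M : List (List Bool) => IsCIS (matGraph M)) ↔
      ∀ L : Set (List Bool), InNP L → InP L) := by
  have h : CoNPHardP (fun M : List (List Bool) => IsCIS (matGraph M)) :=
    hardI_not_cis.toCoNPHardP
  exact ⟨inCoNP_cis, h, fun h' => R554.CoNPHard.collapse h h',
    fun h' => R554.InP.compl (h' _ inCoNP_cis)⟩

end Pool.Agent.Results.MP_bb030f_lc.CISCoNPComplete
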